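import Pool.Agent.Helper82.EN.Stmts2

set_option autoImplicit false

/-! # ENCODING BY TM, module PTR: the words of the reduction are computable in polynomial time -/

namespace Pool.Agent.Helper82.EN

open Pool.Agent.Helper58
open Pool.Agent.Helper53.CL

section

variable {γ : Type} [Pool.Agent.Helper58.Enc γ]

theorem ptr_sum {l : γ → List ℕ} (hl : PTf l) : PTf (fun x => (l x).sum) := by
  have : PTf (fun x => ((l x).flatMap fun n => List.replicate n ()).length) := by fun_prop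
  refine this.congr (fun x => ?_)
  simp [List.length_flatMap]

theorem ptr_nvar {l : γ → List (ℕ × ℕ × ℕ)} (hl : PTf l) : PTf (fun x => nvar (l x)) := by
  unfold nvar
  exact ptr_sum (by fun_prop)

theorem ptr_edges {l : γ → List (ℕ × ℕ × ℕ)} (hl : PTf l) : PTf (fun x => edges (l x)) := by
  have h1 := ptr_nvar hl
  have h2 : PTf (fun p : γ × ((ℕ × ℕ × ℕ) × ℕ) => nvar (l p.1)) :=
    PTf.comp (g := fun x => nvar (l x)) h1 (PTf.fst PTf.id)
  unfold edges
  fun_prop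

theorem ptr_nver {l : γ → List (ℕ × ℕ × ℕ)} (hl : PTf l) : PTf (fun x => nver (l x)) := by
  have h1 := ptr_nvar hl
  unfold nver
  fun_prop

theorem ptr_nst {V : γ → ℕ} {E : γ → List (ℕ × ℕ)} (hV : PTf V) (hE : PTf E) :
    PTf (fun x => nst (V x) (E x)) := by
  unfold nst
  fun_prop

theorem ptr_wz {V : γ → ℕ} {E : γ → List (ℕ × ℕ)} (hV : PTf V) (hE : PTf E) :
    PTf (fun x => wz (V x) (E x)) := by
  unfold wz
  fun_prop

theorem ptr_tin {N u i : γ → ℕ} (hN : PTf N) (hu : PTf u) (hi : PTf i) :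
    PTf (fun x => tin (N x) (u x) (i x)) := by
  unfold tin
  fun_prop

theorem ptr_tou {w : γ → List (Fin 5)} {u i : γ → ℕ} (b : Fin 5) (hw : PTf w) (hu : PTf u)
    (hi : PTf i) : PTf (fun x => tou (w x) (u x) (i x) b) := by
  unfold tou
  fun_prop

theorem ptr_xs {V : γ → ℕ} {E : γ → List (ℕ × ℕ)} (hV : PTf V) (hE : PTf E) :
    PTf (fun x => xs (V x) (E x)) := by
  have h1 := ptr_nst hV hE
  have h2 : PTf (fun p : γ × ((ℕ × ℕ) × ℕ) => nst (V p.1) (E p.1)) :=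
    PTf.comp (g := fun x => nst (V x) (E x)) h1 (PTf.fst PTf.id)
  have h3 : PTf (fun p : γ × ((ℕ × ℕ) × ℕ) => tin (nst (V p.1) (E p.1)) p.2.1.1 p.2.2) :=
    ptr_tin h2 (by fun_prop) (by fun_prop)
  have h4 : PTf (fun p : γ × ((ℕ × ℕ) × ℕ) => tin (nst (V p.1) (E p.1)) p.2.1.2 p.2.2) :=
    ptr_tin h2 (by fun_prop) (by fun_prop)
  unfold xs
  exact PTf.append (by fun_prop) (PTf.flatMap (by fun_prop) (PTf.append h3 h4))

theorem ptr_ys {V : γ → ℕ} {E : γ → List (ℕ × ℕ)} (hV : PTf V) (hE : PTf E) :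
    PTf (fun x => ys (V x) (E x)) := by
  have h1 := ptr_wz hV hE
  have h2 : PTf (fun p : γ × ((ℕ × ℕ) × ℕ) => wz (V p.1) (E p.1)) :=
    PTf.comp (g := fun x => wz (V x) (E x)) h1 (PTf.fst PTf.id)
  have h3 : PTf (fun p : γ × ((ℕ × ℕ) × ℕ) => tou (wz (V p.1) (E p.1)) p.2.1.1 p.2.2 3) :=
    ptr_tou 3 h2 (by fun_prop) (by fun_prop)
  have h4 : PTf (fun p : γ × ((ℕ × ℕ) × ℕ) => tou (wz (V p.1) (E p.1)) p.2.1.2 p.2.2 4) :=
    ptr_tou 4 h2 (by fun_prop) (by fun_prop)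
  unfold ys
  exact PTf.append (PTf.append h1 h1) (PTf.flatMap (by fun_prop) (PTf.append h3 h4))

theorem ptr_val {l : γ → List (Fin 5)} (hl : PTf l) : PTf (fun x => (l x).map Fin.val) := by
  have h1 : PTf (fun a : Fin 5 => a.val) := PTf.of_enc_eq (fun _ => rfl)
  exact PTf.map hl (PTf.comp h1 (PTf.snd PTf.id))

end

theorem st_PTR : ST_PTR := by
  refine ⟨?_, ?_, ?_⟩
  · exact ptr_val (ptr_xs (ptr_nver PTf.id) (ptr_edges PTf.id))
  · exact ptr_val (ptr_ys (ptr_nver PTf.id) (ptr_edges PTf.id))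
  · exact ptr_nst (ptr_nver PTf.id) (ptr_edges PTf.id)

end Pool.Agent.Helper82.EN
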